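import Pool.Agent.FiveLin.Final5

/-!
The three-sum problem: superlinear lower bound for five-linear decision trees with separated
coefficients.
-/

namespace Pool.Agent.Results.MP_13bec0_lc.FiveLinear

open Pool.Agent.FourLin

/-- For all large `n` and all `1 ≤ C ≤ 2 ^ (√(log₂ n) / 12)`: a randomised linear decision procedure
in which every question is the sign of an affine form in at most five of the `n` input numbers,
where the absolute values of any two coefficients of the form are equal or differ by a factor at
least `1 + 1 / C` (this holds for all integer coefficients of absolute value at most `C + 1`), and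
which decides three-sum on `n` distinct integers with error probability at most `1/3`, has expected
number of questions at least `n * 2 ^ (√(log₂ n) / 12) / √C` on some input. Here `σ = 1` is the
question `a + b = c`, and `σ = -1` is the question `a + b + c = 0`. -/
theorem result : ∃ N₀ : ℕ, ∀ n ≥ N₀, ∀ σ : ℝ, σ = 1 ∨ σ = -1 →
    ∀ C : ℝ, 1 ≤ C → C ≤ (2 : ℝ) ^ (Real.sqrt (Real.logb 2 n) / 12) →
    ∀ (Ω : Type) [Fintype Ω] (E : ℝ) (μ : Ω → ℝ) (A : Ω → LTree n), Solver σ n 5 E μ A →
      (∀ ω, (A ω).IsSeparated C) →
      (n : ℝ) * (2 : ℝ) ^ (Real.sqrt (Real.logb 2 n) / 12) / Real.sqrt C ≤ E :=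
  main5

end Pool.Agent.Results.MP_13bec0_lc.FiveLinear
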